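import Pool.Agent.Helper89.OS.St2

set_option autoImplicit false

namespace Pool.Agent.Helper66.OS

open Pool.Agent.Helper89.OS Pool.Agent.Helper94.YF Pool.Agent.Helper94.YG

theorem pid_B1 {B : Type} [CommRing B] (m : ℕ) (hm : 0 < m) (h0 : (m : B) = 0) (q : B)
    (hq : IsIntegral ℤ q) : ((Algebra.adjoin ℤ {q} : Subalgebra ℤ B) : Set B).Finite := by
  have hfg : (Algebra.adjoin ℤ {q}).toSubmodule.FG := hq.fg_adjoin_singleton
  have hmf : Module.Finite ℤ (Algebra.adjoin ℤ {q}) := Module.Finite.iff_fg.mpr hfg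
  have hfin : Finite (Algebra.adjoin ℤ {q}) := by
    apply Module.finite_of_fg_torsion
    intro y
    refine ⟨⟨(m : ℤ), mem_nonZeroDivisors_of_ne_zero (by exact_mod_cast hm.ne')⟩, ?_⟩
    apply Subtype.ext
    have : ((m : ℤ) • (y : B)) = 0 := by
      rw [zsmul_eq_mul, Int.cast_natCast, h0, zero_mul]
    exact this
  exact Set.toFinite _

theorem pid_B3 {B : Type} [CommRing B] (q : B)
    (hfin : ((Algebra.adjoin ℤ {q} : Subalgebra ℤ B) : Set B).Finite) :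
    ∃ i j : ℕ, i < j ∧ q ^ i = q ^ j := by
  have h1 : q ∈ (Algebra.adjoin ℤ {q} : Subalgebra ℤ B) := Algebra.self_mem_adjoin_singleton ℤ q
  exact hfin.exists_lt_map_eq_of_forall_mem (f := fun k : ℕ => q ^ k)
    (fun k => Subalgebra.pow_mem _ h1 k)

/-- pigeonhole: an integral element has two different powers congruent modulo `m > 0` -/
theorem pid_gen {A : Type} [CommRing A] (m : ℕ) (hm : 0 < m) (x : A) (h1 : IsIntegral ℤ x) :
    ∃ i j : ℕ, i < j ∧ ∃ a : A, x ^ i - x ^ j = a * (m : A) := by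
  obtain ⟨J, hJ⟩ : ∃ J : Ideal A, J = Ideal.span {(m : A)} := ⟨_, rfl⟩
  have hm0 : (m : A ⧸ J) = 0 := by
    have : (m : A) ∈ J := by
      rw [hJ]; exact Ideal.mem_span_singleton_self _
    have h2 := Ideal.Quotient.eq_zero_iff_mem.mpr this
    rwa [map_natCast] at h2
  have hx : IsIntegral ℤ (Ideal.Quotient.mk J x) := h1.map (Ideal.Quotient.mkₐ ℤ J)
  obtain ⟨i, j, hij, he⟩ := pid_B3 _ (pid_B1 m hm hm0 _ hx)
  refine ⟨i, j, hij, ?_⟩
  rw [← map_pow, ← map_pow] at he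
  have h4 : x ^ i - x ^ j ∈ J := Ideal.Quotient.eq.mp he
  rw [hJ, Ideal.mem_span_singleton'] at h4
  obtain ⟨a, ha⟩ := h4
  exact ⟨a, ha.symm⟩

/-- `x ^ K = x ^ (2 K)` modulo `m` for some `K > 0` -/
theorem pid_idem {A : Type} [CommRing A] (m : ℕ) (hm : 0 < m) (x : A) (h1 : IsIntegral ℤ x) :
    ∃ K : ℕ, 0 < K ∧ ∃ a : A, x ^ K - x ^ (2 * K) = a * (m : A) := by
  obtain ⟨i, j, hij, a, ha⟩ := pid_gen m hm x h1
  obtain ⟨d, hd⟩ : ∃ d, j = i + d := ⟨j - i, by omega⟩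
  have hd0 : 0 < d := by omega
  subst hd
  -- step
  have step : ∀ k, i ≤ k → ∀ t, ∃ b : A, x ^ k - x ^ (k + d * t) = b * (m : A) := by
    intro k hk t
    obtain ⟨e, rfl⟩ : ∃ e, k = i + e := ⟨k - i, by omega⟩
    induction t with
    | zero => exact ⟨0, by simp⟩
    | succ t ih =>
      obtain ⟨b, hb⟩ := ih
      refine ⟨b + x ^ (e + d * t) * a, ?_⟩
      have e1 : x ^ (i + e + d * (t + 1)) = x ^ (e + d * t) * x ^ (i + d) := by
        rw [← pow_add]; congr 1; ring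
      have e2 : x ^ (i + e + d * t) = x ^ (e + d * t) * x ^ i := by
        rw [← pow_add]; congr 1; ring
      rw [e2] at hb
      rw [e1]
      linear_combination hb + x ^ (e + d * t) * ha
  refine ⟨d * (i + 1), Nat.mul_pos hd0 (Nat.succ_pos i), ?_⟩
  obtain ⟨b, hb⟩ := step (d * (i + 1)) (by nlinarith) (i + 1)
  refine ⟨b, ?_⟩
  rw [← hb]
  congr 2
  ring

theorem pid_nu (p : ℕ) (hp : p.Prime) : ¬ IsUnit (p : integralClosure ℤ ℂ) := by
  intro hu
  obtain ⟨b, hb⟩ := hu.exists_right_inv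
  have hbi : IsIntegral ℤ (b : ℂ) := b.2
  have hb2 : (p : ℂ) * (b : ℂ) = 1 := by
    have := congrArg (fun z : integralClosure ℤ ℂ => (z : ℂ)) hb
    simpa using this
  have hpc : (p : ℂ) ≠ 0 := by exact_mod_cast hp.ne_zero
  have hb3 : (b : ℂ) = algebraMap ℚ ℂ ((p : ℚ)⁻¹) := by
    have : (b : ℂ) = (p : ℂ)⁻¹ := by
      field_simp
      rw [mul_comm]; exact hb2
    rw [this]; simp
  rw [hb3, isIntegral_algebraMap_iff (algebraMap ℚ ℂ).injective] at hbi
  obtain ⟨z, hz⟩ := IsIntegrallyClosed.isIntegral_iff.mp hbi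
  have hpq : (p : ℚ) ≠ 0 := by exact_mod_cast hp.ne_zero
  have h5 : (p : ℚ) * (z : ℚ) = 1 := by
    have : (z : ℚ) = (p : ℚ)⁻¹ := by simpa using hz
    rw [this]; field_simp
  have h6 : (p : ℤ) * z = 1 := by exact_mod_cast h5
  have h7 : (p : ℤ) ∣ 1 := ⟨z, h6.symm⟩
  have h8 := Int.natAbs_dvd_natAbs.mpr h7
  simp at h8
  exact hp.one_lt.ne' h8

theorem hPID : StPID := by
  classical
  intro _ p hp
  have hne : Ideal.span {(p : integralClosure ℤ ℂ)} ≠ ⊤ := by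
    intro h
    exact pid_nu p hp (Ideal.span_singleton_eq_top.mp h)
  obtain ⟨M, hM, hle⟩ := Ideal.exists_le_maximal _ hne
  have hpM : (p : integralClosure ℤ ℂ) ∈ M := hle (Ideal.mem_span_singleton_self _)
  have h1M : (1 : integralClosure ℤ ℂ) ∉ M := (Ideal.ne_top_iff_one M).mp hM.ne_top
  have hPr : M.IsPrime := hM.isPrime
  refine ⟨fun z => ∃ h : IsIntegral ℤ z, (⟨z, h⟩ : integralClosure ℤ ℂ) ∈ M, ?_⟩
  refine ⟨?_, ?_, ?_, ?_, ?_, ?_, ?_⟩
  · rintro z ⟨h, _⟩; exact h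
  · exact ⟨isIntegral_zero, M.zero_mem⟩
  · rintro x y ⟨hx, hx'⟩ ⟨hy, hy'⟩
    exact ⟨hx.add hy, M.add_mem hx' hy'⟩
  · rintro x y hx ⟨hy, hy'⟩
    exact ⟨hx.mul hy, M.mul_mem_left (⟨x, hx⟩ : integralClosure ℤ ℂ) hy'⟩
  · rintro x y hx hy ⟨hxy, h⟩
    have h' : (⟨x, hx⟩ : integralClosure ℤ ℂ) * ⟨y, hy⟩ ∈ M := h
    rcases hPr.mem_or_mem h' with h1 | h1
    · exact Or.inl ⟨hx, h1⟩
    · exact Or.inr ⟨hy, h1⟩
  · intro k
    constructor
    · rintro ⟨h, hk⟩
      by_contra hnd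
      have hcop : IsCoprime (p : ℤ) k := by
        rw [Int.isCoprime_iff_gcd_eq_one]
        have : Nat.Coprime p k.natAbs := by
          rw [hp.coprime_iff_not_dvd]
          intro hd
          exact hnd (Int.natCast_dvd.mpr hd)
        simpa [Int.gcd, Nat.Coprime] using this
      obtain ⟨u, v, huv⟩ := hcop
      apply h1M
      have e1 : (1 : integralClosure ℤ ℂ) =
          (u : integralClosure ℤ ℂ) * (p : integralClosure ℤ ℂ) +
          (v : integralClosure ℤ ℂ) * ⟨(k : ℂ), h⟩ := by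
        apply Subtype.ext
        have : (u : ℂ) * (p : ℂ) + (v : ℂ) * (k : ℂ) = 1 := by exact_mod_cast huv
        simp [this]
      rw [e1]
      exact M.add_mem (M.mul_mem_left _ hpM) (M.mul_mem_left _ hk)
    · rintro ⟨c, rfl⟩
      have hpc : IsIntegral ℤ ((((p : ℤ) * c : ℤ)) : ℂ) := by
        have h := isIntegral_algebraMap (R := ℤ) (A := ℂ) (x := (p : ℤ) * c)
        simpa using h
      refine ⟨hpc, ?_⟩
      have : ∀ h, (⟨(((p : ℤ) * c : ℤ) : ℂ), h⟩ : integralClosure ℤ ℂ) =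
          (c : integralClosure ℤ ℂ) * (p : integralClosure ℤ ℂ) := by
        intro h
        apply Subtype.ext
        push_cast
        ring
      rw [this]
      exact M.mul_mem_left _ hpM
  · rintro x ⟨hx, hxM⟩
    obtain ⟨K, hK, a, ha⟩ := pid_idem (p ^ 2) (pow_pos hp.pos 2)
      (⟨x, hx⟩ : integralClosure ℤ ℂ) (integralClosure.isIntegral _)
    have hKM : (⟨x, hx⟩ : integralClosure ℤ ℂ) ^ K ∈ M := Ideal.pow_mem_of_mem M hxM K hK
    have ha' : x ^ K - x ^ (2 * K) = (a : ℂ) * (p : ℂ) ^ 2 := by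
      have := congrArg (fun z : integralClosure ℤ ℂ => (z : ℂ)) ha
      simpa using this
    refine ⟨K, 1 - x ^ K, hK, isIntegral_one.sub (hx.pow K), ?_, ?_⟩
    · rintro ⟨h, hs⟩
      apply h1M
      have e1 : (1 : integralClosure ℤ ℂ) = ⟨1 - x ^ K, h⟩ + ⟨x, hx⟩ ^ K := by
        apply Subtype.ext
        simp
      rw [e1]
      exact M.add_mem hs hKM
    · have hpc : (p : ℂ) ≠ 0 := by exact_mod_cast hp.ne_zero
      have e2 : (1 - x ^ K) * x ^ K / (p : ℂ) ^ 2 = (a : ℂ) := by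
        rw [div_eq_iff (pow_ne_zero 2 hpc), ← ha']
        ring
      rw [e2]
      exact a.2

end Pool.Agent.Helper66.OS
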